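import Mathlib

/-!
# Cubic growth from three algebraically independent elements
-/

set_option autoImplicit false

namespace Pool.Agent.TH862.N4

open Module MvPolynomial

theorem prod_mem_pow {F K : Type*} [Field F] [Field K] [Algebra F K] {W : Submodule F K}
    {α : Type*} (v : α → K) (hv : ∀ i, v i ∈ W) (s : Multiset α) :
    (s.map v).prod ∈ W ^ Multiset.card s := by
  induction s using Multiset.induction_on with
  | empty => simp
  | cons i s ih =>
    rw [Multiset.map_cons, Multiset.prod_cons, Multiset.card_cons, pow_succ']
    exact Submodule.mul_mem_mul (hv i) ih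

theorem growth_three {F K : Type*} [Field F] [Field K] [Algebra F K] {W : Submodule F K}
    [FiniteDimensional F W] (h1 : (1 : K) ∈ W) {a b c q : K} (hq : q ≠ 0)
    (hind : AlgebraicIndependent F ![a, b, c]) (hq' : q ∈ W) (ha : a * q ∈ W) (hb : b * q ∈ W)
    (hc : c * q ∈ W) (t : ℕ) :
    (t + 3).choose 3 ≤ finrank F (W ^ t : Submodule F K) := by
  classical
  have _ := h1
  let v : Fin 4 → K := ![q, a * q, b * q, c * q]
  let u : Fin 4 → K := ![1, a, b, c]
  have hv : ∀ i, v i ∈ W := by
    intro i
    fin_cases i
    · exact hq'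
    · exact ha
    · exact hb
    · exact hc
  have hvu : ∀ i, v i = u i * q := by
    intro i
    fin_cases i <;> simp [v, u]
  let e : Sym (Fin 4) t → (Fin 3 →₀ ℕ) := fun s =>
    Finsupp.equivFunOnFinite.symm fun i => Multiset.count i.succ (s : Multiset (Fin 4))
  have he : Function.Injective e := by
    intro s s' hss
    have h2 : ∀ i : Fin 3, Multiset.count i.succ (s : Multiset (Fin 4)) =
        Multiset.count i.succ (s' : Multiset (Fin 4)) := fun i => DFunLike.congr_fun hss i
    have h3 : ∀ s : Sym (Fin 4) t, ∑ i : Fin 4, Multiset.count i (s : Multiset (Fin 4)) = t := by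
      intro s
      rw [Multiset.sum_count_eq_card (fun a _ => Finset.mem_univ a)]
      exact s.2
    have h4 := h3 s
    have h5 := h3 s'
    rw [Fin.sum_univ_succ] at h4 h5
    have h6 : ∑ i : Fin 3, Multiset.count i.succ (s : Multiset (Fin 4)) =
        ∑ i : Fin 3, Multiset.count i.succ (s' : Multiset (Fin 4)) :=
      Finset.sum_congr rfl fun i _ => h2 i
    have h7 : Multiset.count 0 (s : Multiset (Fin 4)) = Multiset.count 0 (s' : Multiset (Fin 4)) := by
      omega
    apply Sym.coe_injective
    apply Multiset.ext.2
    intro i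
    refine Fin.cases h7 (fun i => h2 i) i
  have hfam : ∀ s : Sym (Fin 4) t, ((s : Multiset (Fin 4)).map v).prod =
      aeval ![a, b, c] (monomial (e s) (1 : F)) * q ^ t := by
    intro s
    have h2 : ((s : Multiset (Fin 4)).map v).prod =
        ((s : Multiset (Fin 4)).map u).prod * q ^ t := by
      have h3 : v = fun i => u i * q := funext hvu
      rw [h3, Multiset.prod_map_mul, Multiset.map_const', Multiset.prod_replicate]
      congr 2
      exact s.2
    rw [h2]
    congr 1
    rw [Finset.prod_multiset_map_count, Finset.prod_subset (Finset.subset_univ _)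
      (fun i _ hi => by
        rw [Multiset.mem_toFinset] at hi
        rw [Multiset.count_eq_zero_of_notMem hi, pow_zero]),
      Fin.prod_univ_succ, aeval_monomial, map_one, one_mul, Finsupp.prod_fintype _ _ (by simp)]
    have h3 : u 0 = 1 := rfl
    rw [h3, one_pow, one_mul]
    refine Finset.prod_congr rfl fun i _ => ?_
    fin_cases i <;> rfl
  have hli : LinearIndependent F fun s : Sym (Fin 4) t => ((s : Multiset (Fin 4)).map v).prod := by
    have h2 : LinearIndependent F fun s : Sym (Fin 4) t => (monomial (e s) (1 : F)) := by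
      have h3 := (basisMonomials (Fin 3) F).linearIndependent.comp e he
      convert! h3 using 1
    have h4 := h2.map' (aeval ![a, b, c] : MvPolynomial (Fin 3) F →ₐ[F] K).toLinearMap
      (LinearMap.ker_eq_bot.2 hind)
    have h5 := h4.map' (LinearMap.mulRight F (q ^ t))
      (LinearMap.ker_eq_bot.2 (mul_left_injective₀ (pow_ne_zero t hq)))
    convert! h5 using 1
    funext s
    exact hfam s
  haveI : FiniteDimensional F (W ^ t : Submodule F K) := by
    rw [← Submodule.fg_iff_finiteDimensional]
    exact Submodule.FG.pow ((Submodule.fg_iff_finiteDimensional W).2 inferInstance) t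
  have hmem : ∀ s : Sym (Fin 4) t, ((s : Multiset (Fin 4)).map v).prod ∈ W ^ t := by
    intro s
    have h2 := prod_mem_pow v hv (s : Multiset (Fin 4))
    have h3 : Multiset.card (s : Multiset (Fin 4)) = t := s.2
    rwa [h3] at h2
  let g : Sym (Fin 4) t → (W ^ t : Submodule F K) := fun s => ⟨_, hmem s⟩
  have hg : LinearIndependent F g := by
    apply LinearIndependent.of_comp (W ^ t).subtype
    exact hli
  have h2 := hg.fintype_card_le_finrank
  rw [Sym.card_sym_eq_choose, Fintype.card_fin] at h2
  have h3 : (4 + t - 1).choose t = (t + 3).choose 3 := by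
    have e1 : 4 + t - 1 = t + 3 := by omega
    rw [e1]
    exact Nat.choose_symm_add
  rwa [h3] at h2

end Pool.Agent.TH862.N4
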